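import Mathlib

set_option autoImplicit false
set_option maxHeartbeats 400000

namespace Pool.Agent.Results.MP_cfa383_al.Example

/-- `(ℤG)^r₁ → (ℤG)^r₀ → ℤ → 0` is a finitely generated free first-stage resolution with
boundary map `d₁`. -/
def IsFirstResolution (G : Type) [Group G] (r₀ r₁ : ℕ)
    (d₁ : (Fin r₁ → MonoidAlgebra ℤ G) →ₗ[MonoidAlgebra ℤ G] (Fin r₀ → MonoidAlgebra ℤ G)) : Prop :=
  ∃ d₀ : (Fin r₀ → MonoidAlgebra ℤ G) →+ ℤ,
    (∀ (g : G) x, d₀ (MonoidAlgebra.of ℤ G g • x) = d₀ x) ∧ Function.Surjective d₀ ∧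
      Function.Exact d₁ d₀

noncomputable def bd {G : Type} [Group G] {r : ℕ} (g : Fin r → G) :
    (Fin r → MonoidAlgebra ℤ G) →ₗ[MonoidAlgebra ℤ G] (Fin 1 → MonoidAlgebra ℤ G) :=
  LinearMap.pi fun _ => Fintype.linearCombination _ fun i => MonoidAlgebra.of ℤ G (g i) - 1

lemma bd_apply {G : Type} [Group G] {r : ℕ} (g : Fin r → G) (x : Fin r → MonoidAlgebra ℤ G)
    (j : Fin 1) : bd g x j = ∑ i, x i * (MonoidAlgebra.of ℤ G (g i) - 1) := by
  simp [bd, Fintype.linearCombination_apply]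

lemma res {G : Type} [Group G] {r : ℕ} (g : Fin r → G) (hg : Subgroup.closure (Set.range g) = ⊤) :
    IsFirstResolution G 1 r (bd g) := by
  obtain ⟨ε, hε⟩ : ∃ ε : MonoidAlgebra ℤ G →ₐ[ℤ] ℤ, ∀ h, ε (MonoidAlgebra.of ℤ G h) = 1 :=
    ⟨MonoidAlgebra.lift ℤ ℤ G 1, fun h => by simp⟩
  obtain ⟨I, hI⟩ : ∃ I : Ideal (MonoidAlgebra ℤ G),
    I = Submodule.span _ (Set.range fun i => MonoidAlgebra.of ℤ G (g i) - 1) := ⟨_, rfl⟩
  have h1 : ∀ h : G, MonoidAlgebra.of ℤ G h - 1 ∈ I := by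
    intro h
    have : h ∈ Subgroup.closure (Set.range g) := by rw [hg]; trivial
    induction this using Subgroup.closure_induction with
    | mem x hx => obtain ⟨i, rfl⟩ := hx; rw [hI]; exact Submodule.subset_span ⟨i, rfl⟩
    | one => simp [← MonoidAlgebra.one_def]
    | mul x y _ _ h1 h2 =>
      convert I.add_mem h1 (I.mul_mem_left (MonoidAlgebra.of ℤ G x) h2) using 1
      rw [map_mul]; noncomm_ring
    | inv x _ h1 =>
      convert I.neg_mem (I.mul_mem_left (MonoidAlgebra.of ℤ G x⁻¹) h1) using 1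
      rw [mul_sub, ← map_mul, inv_mul_cancel, map_one]; noncomm_ring
  have h2 : ∀ f : MonoidAlgebra ℤ G, f - (ε f : ℤ) ∈ I := by
    intro f
    induction f using MonoidAlgebra.induction_on with
    | of h => rw [hε, Int.cast_one]; exact h1 h
    | add f f' h3 h4 =>
      convert I.add_mem h3 h4 using 1
      rw [map_add]; push_cast; abel
    | smul c f h3 =>
      convert I.mul_mem_left (c : MonoidAlgebra ℤ G) h3 using 1
      rw [map_smul, mul_sub]; simp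
  refine ⟨ε.toRingHom.toAddMonoidHom.comp (Pi.evalAddMonoidHom _ 0), fun h x => ?_,
    fun n => ⟨fun _ => n, by simp⟩, fun x => ⟨fun hx => ?_, ?_⟩⟩
  · show ε (MonoidAlgebra.of ℤ G h * x 0) = ε (x 0)
    rw [map_mul, hε, one_mul]
  · have hx : ε (x 0) = 0 := hx
    have h3 := h2 (x 0)
    rw [hx, Int.cast_zero, sub_zero, hI, Submodule.mem_span_range_iff_exists_fun] at h3
    obtain ⟨c, hc⟩ := h3
    exact ⟨c, funext fun j => by rw [bd_apply, Subsingleton.elim j 0]; exact hc⟩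
  · rintro ⟨c, rfl⟩
    show ε (bd g c 0) = 0
    simp only [bd_apply, map_sum, map_mul, map_sub, hε, map_one, sub_self, mul_zero,
      Finset.sum_const_zero]

lemma cl_top {E ι : Type} [Group E] (K : Subgroup E) (f : ι → K)
    (h : K ≤ Subgroup.closure (Set.range fun i => (f i).1)) : Subgroup.closure (Set.range f) = ⊤ := by
  apply Subgroup.map_injective K.subtype_injective
  rw [MonoidHom.map_closure, ← Set.range_comp, ← MonoidHom.range_eq_map, Subgroup.range_subtype]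
  exact le_antisymm ((Subgroup.closure_le _).mpr (by rintro _ ⟨i, rfl⟩; exact (f i).2)) h

abbrev V : Type := (ℕ → ℤ) × (ℕ → ℤ)
abbrev W : Type := V × (Fin 7 → V)

def ta (π : (Fin 7 → V) →ₗ[ℤ] V) : Module.End ℤ W :=
  LinearMap.inl ℤ _ _ ∘ₗ π ∘ₗ LinearMap.snd ℤ _ _

def la (n : Module.End ℤ V) : Module.End ℤ W := LinearMap.inl ℤ _ _ ∘ₗ n ∘ₗ LinearMap.fst ℤ _ _

def tr (π : (Fin 7 → V) →ₗ[ℤ] V) : (Module.End ℤ W)ˣ :=
  ⟨1 + ta π, 1 - ta π, LinearMap.ext fun w => by simp [ta], LinearMap.ext fun w => by simp [ta]⟩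

def ev (a : ℕ) : Module.End ℤ (ℕ → ℤ) := LinearMap.funLeft ℤ ℤ fun k => 2 * k + a

def od (a : ℕ) : Module.End ℤ (ℕ → ℤ) where
  toFun f k := if k % 2 = a then f (k / 2) else 0
  map_add' f g := by ext k; split_ifs <;> simp [*]
  map_smul' c f := by ext k; split_ifs <;> simp [*]

def up (s : Module.End ℤ (ℕ → ℤ)) : Module.End ℤ V :=
  LinearMap.inl ℤ _ _ ∘ₗ s ∘ₗ LinearMap.snd ℤ _ _

def nn : Fin 7 → Module.End ℤ V :=
  ![0, 0, LinearMap.inr ℤ _ _ ∘ₗ LinearMap.fst ℤ _ _, up (ev 0), up (ev 1), up (od 0), up (od 1)]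

lemma nn_sq (i : Fin 7) (v : V) : nn i (nn i v) = 0 := by
  fin_cases i <;> simp [nn, up]

def gg (i : Fin 7) : (Module.End ℤ W)ˣ := tr (LinearMap.proj i) *
  ⟨1 + la (nn i), 1 - la (nn i), LinearMap.ext fun w => by simp [la, nn_sq],
    LinearMap.ext fun w => by simp [la, nn_sq]⟩

lemma gg_apply (i : Fin 7) (w : W) : (gg i).1 w = (w.1 + nn i w.1 + w.2 i, w.2) := by
  ext1 <;> simp [gg, tr, ta, la]

def NH (H : Subgroup (Module.End ℤ W)ˣ) : AddSubgroup ((Fin 7 → V) →ₗ[ℤ] V) where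
  carrier := {π | tr π ∈ H}
  zero_mem' := by
    have : tr 0 = 1 := Units.ext (LinearMap.ext fun w => by simp [tr, ta])
    simp [this]
  add_mem' {a b} ha hb := by
    have : tr (a + b) = tr a * tr b := Units.ext (LinearMap.ext fun w => by
      ext1 <;> simp [tr, ta]; abel)
    simpa [this] using H.mul_mem ha hb
  neg_mem' {a} ha := by
    have : tr (-a) = (tr a)⁻¹ := Units.ext (LinearMap.ext fun w => by
      simp [tr, ta, sub_eq_add_neg])
    simpa [this] using ha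

lemma NH_nn (H : Subgroup (Module.End ℤ W)ˣ) (i : Fin 7) (hi : gg i ∈ H) (π) (h : π ∈ NH H) :
    nn i ∘ₗ π ∈ NH H := by
  have h1 : tr (π + nn i ∘ₗ π) = gg i * tr π * (gg i)⁻¹ := by
    rw [eq_mul_inv_iff_mul_eq]
    refine Units.ext (LinearMap.ext fun w => ?_)
    simp [gg_apply, tr, ta]
    abel
  have h2 : π + nn i ∘ₗ π ∈ NH H := by
    show tr _ ∈ H
    rw [h1]
    exact H.mul_mem (H.mul_mem hi h) (H.inv_mem hi)
  simpa using (NH H).sub_mem h2 h

lemma NH_dg (H : Subgroup (Module.End ℤ W)ˣ) (i : Fin 7) (h2 : gg 2 ∈ H) (hi : gg i ∈ H)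
    (s : Module.End ℤ (ℕ → ℤ)) (hs : nn i = up s) (π) (h : π ∈ NH H) :
    s.prodMap s ∘ₗ π ∈ NH H := by
  convert (NH H).add_mem (NH_nn H i hi _ (NH_nn H 2 h2 _ h)) (NH_nn H 2 h2 _ (NH_nn H i hi _ h))
  refine LinearMap.ext fun z => ?_
  rw [hs]
  ext1 <;> simp [nn, up]

def n0 : (Fin 7 → V) →ₗ[ℤ] V :=
  (od 0).prodMap (od 0) ∘ₗ LinearMap.proj 0 + (od 1).prodMap (od 1) ∘ₗ LinearMap.proj 1

def GG : Subgroup (Module.End ℤ W)ˣ := Subgroup.closure (Set.range gg)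

lemma gg_mem (i : Fin 7) : gg i ∈ GG := Subgroup.subset_closure ⟨i, rfl⟩

lemma gg0 : gg 0 = tr (LinearMap.proj 0) :=
  Units.ext (LinearMap.ext fun w => by ext1 <;> simp [gg_apply, tr, ta, nn])

lemma gg1 : gg 1 = tr (LinearMap.proj 1) :=
  Units.ext (LinearMap.ext fun w => by ext1 <;> simp [gg_apply, tr, ta, nn])

lemma n0_mem : tr n0 ∈ GG :=
  (NH GG).add_mem (NH_dg GG 5 (gg_mem _) (gg_mem _) _ rfl _ (show tr _ ∈ _ from gg0 ▸ gg_mem 0))
    (NH_dg GG 6 (gg_mem _) (gg_mem _) _ rfl _ (show tr _ ∈ _ from gg1 ▸ gg_mem 1))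

def hh : Fin 6 → GG := fun j => if j = 0 then ⟨_, n0_mem⟩ else ⟨gg j.succ, gg_mem _⟩

lemma hh_top : Subgroup.closure (Set.range hh) = ⊤ := by
  refine cl_top _ _ ((Subgroup.closure_le _).mpr ?_)
  generalize hH : Subgroup.closure (Set.range fun i => (hh i).1) = H
  have h0 : ∀ j, (hh j).1 ∈ H := fun j => hH ▸ Subgroup.subset_closure ⟨j, rfl⟩
  have e : ∀ a : Fin 2, (ev a).prodMap (ev a) ∘ₗ n0 = LinearMap.proj (a.castLE (by norm_num)) := by
    intro a
    refine LinearMap.ext fun z => ?_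
    have e1 : ∀ k, (2 * k + 1) % 2 = 1 := by omega
    have e2 : ∀ k, (2 * k + 1) / 2 = k := by omega
    fin_cases a <;> ext k <;> simp [n0, ev, od, LinearMap.funLeft_apply, e1, e2]
  rintro _ ⟨i, rfl⟩
  fin_cases i
  · have := NH_dg H 3 (h0 1) (h0 2) _ rfl _ (h0 0)
    exact gg0 ▸ (e 0 ▸ this :)
  · have := NH_dg H 4 (h0 1) (h0 3) _ rfl _ (h0 0)
    exact gg1 ▸ (e 1 ▸ this :)
  · exact h0 1
  · exact h0 2
  · exact h0 3
  · exact h0 4
  · exact h0 5

noncomputable def Ph : MonoidAlgebra ℤ GG →ₐ[ℤ] Module.End ℤ W :=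
  MonoidAlgebra.lift ℤ _ GG ((Units.coeHom _).comp GG.subtype)

lemma Ph_inv (f : MonoidAlgebra ℤ GG) (v : V) : (Ph f (v, 0)).2 = 0 := by
  induction f using MonoidAlgebra.induction_on with
  | of h =>
    obtain ⟨h, hh⟩ := h
    suffices h1 : ∀ w : W, (h.1 w).2 = w.2 by simpa [Ph] using h1 (v, 0)
    induction hh using Subgroup.closure_induction with
    | mem x hx => obtain ⟨i, rfl⟩ := hx; simp [gg_apply]
    | one => simp
    | mul x y _ _ h1 h2 => intro w; simp [h1, h2]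
    | inv x _ h1 =>
      intro w
      rw [← h1, ← Module.End.mul_apply, Units.mul_inv, Module.End.one_apply]
  | add f f' h1 h2 => simp [h1, h2]
  | smul c f h1 => simp [h1]

theorem result : ∃ (G : Type) (_ : Group G) (r₀ r₁ s₀ s₁ : ℕ)
    (d : (Fin r₁ → MonoidAlgebra ℤ G) →ₗ[MonoidAlgebra ℤ G] (Fin r₀ → MonoidAlgebra ℤ G))
    (d' : (Fin s₁ → MonoidAlgebra ℤ G) →ₗ[MonoidAlgebra ℤ G] (Fin s₀ → MonoidAlgebra ℤ G)),
    IsFirstResolution G r₀ r₁ d ∧ IsFirstResolution G s₀ s₁ d' ∧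
      (s₁ : ℤ) - s₀ < (r₁ : ℤ) - r₀ ∧
      TwoSidedIdeal.span {a | ∃ x, d x = 0 ∧ ∃ j, a = x j} ≠ ⊤ := by
  refine ⟨GG, inferInstance, 1, 7, 1, 6, bd fun i => ⟨gg i, gg_mem i⟩, bd hh,
    res _ (cl_top _ _ le_rfl), res _ hh_top, by norm_num, fun h => ?_⟩
  have h1 : ∀ a ∈ TwoSidedIdeal.span {a | ∃ x, bd (fun i => (⟨gg i, gg_mem i⟩ : GG)) x = 0 ∧
      ∃ j, a = x j}, ∀ v : V, Ph a (v, 0) = 0 := by
    intro a ha
    induction ha using TwoSidedIdeal.span_induction with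
    | mem a ha =>
      obtain ⟨x, hx, j, rfl⟩ := ha
      intro v
      have h2 := congrArg (fun f => Ph f (0, Pi.single j v)) (congrFun hx 0)
      simp only [bd_apply, map_sum, map_mul, map_sub, map_one, LinearMap.sum_apply,
        Module.End.mul_apply, Pi.zero_apply, map_zero, LinearMap.zero_apply] at h2
      rw [Finset.sum_eq_single j] at h2
      · simpa [Ph, gg_apply] using h2
      · intro i _ hi
        simp [Ph, gg_apply, hi]
      · simp
    | zero => simp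
    | add a b _ _ h2 h3 => intro v; simp [h2, h3]
    | neg a _ h2 => intro v; simp [h2]
    | left_absorb a b _ h2 => intro v; simp [h2]
    | right_absorb b a _ h2 =>
      intro v
      have h3 : Ph b (v, 0) = ((Ph b (v, 0)).1, 0) := Prod.ext rfl (Ph_inv b v)
      rw [map_mul, Module.End.mul_apply, h3, h2]
  have h2 := h1 1 (by rw [h]; trivial) 1
  simp at h2

end Pool.Agent.Results.MP_cfa383_al.Example
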